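import Pool.Agent.R758.CQ.Basic

/-!
MP_d05d56_co (Q1): three-ray equipartitions from an interior point versus two-ray equipartitions from
the boundary points. Disproof.

`C` is the triangle with the vertices `(-6, 0)`, `(6, 0)`, `(0, 10)`, and `P = (0, 8)`,
`A₀ = (-5, 0)`, `A₁ = (0, 0)`, `A₂ = (5, 0)`. The segments `P Aᵢ` cut `C` into two triangles of area
`20` and a third piece (the part of `C` outside the triangle `A₀ A₂ P`) of area `20`. The cuts have the
total length `8 + 2 √89 > 26.8`, but no point of `C` is farther than `11.2` from any `Aᵢ`.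
-/

set_option autoImplicit false
set_option maxHeartbeats 4000000

open MeasureTheory Set
open scoped ENNReal

namespace Pool.Agent.Results.MP_d05d56_co.ShorterFromBoundary

open Pool.Agent.R758.CQ (P mk0 mk1 ext2 eta2)
open Pool.Agent.Helper717.Hull1 (orient tri_iff line_null)
open Pool.Agent.Helper717.Hull2 (tri_vol tri_meas)

/-- The Euclidean plane. -/
abbrev E2 := EuclideanSpace ℝ (Fin 2)

/-- A convex region: a compact convex set with nonempty interior. -/
def IsConvexRegion (C : Set E2) : Prop := IsCompact C ∧ Convex ℝ C ∧ (interior C).Nonempty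

/-- The pieces into which the cuts divide `C`: the connected components of `C \ cuts`. -/
def pieces (C cuts : Set E2) : Set (Set E2) :=
  {D | ∃ x ∈ C \ cuts, D = connectedComponentIn (C \ cuts) x}

/-- The cuts divide `C` into exactly three pieces, each of area `|C| / 3`. -/
def IsEquipartition (C cuts : Set E2) : Prop :=
  (pieces C cuts).ncard = 3 ∧ ∀ D ∈ pieces C cuts, volume D = volume C / 3

/-- A three-ray equipartition of `C` from the interior point `p` with the boundary points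
`A 0, A 1, A 2`. -/
def IsThreeRayEquipartition (C : Set E2) (p : E2) (A : Fin 3 → E2) : Prop :=
  p ∈ interior C ∧ (∀ i, A i ∈ frontier C) ∧
    IsEquipartition C (segment ℝ p (A 0) ∪ segment ℝ p (A 1) ∪ segment ℝ p (A 2))

/-- A two-ray equipartition of `C` from the boundary point `x`, with chords from `x` to the boundary
points `y` and `z`. -/
def IsTwoRayEquipartition (C : Set E2) (x y z : E2) : Prop :=
  x ∈ frontier C ∧ y ∈ frontier C ∧ z ∈ frontier C ∧
    IsEquipartition C (segment ℝ x y ∪ segment ℝ x z)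

/-! ### The example -/

noncomputable def C : Set E2 := convexHull ℝ {P (-6) 0, P 6 0, P 0 10}

lemma mem_C (q : E2) : q ∈ C ↔ 0 ≤ q 1 ∧ 5 * q 0 + 3 * q 1 ≤ 30 ∧ -5 * q 0 + 3 * q 1 ≤ 30 := by
  unfold C
  rw [tri_iff _ _ _ _ (by simp only [orient, mk0, mk1]; norm_num)]
  simp only [orient, mk0, mk1]
  constructor
  · rintro ⟨h1, h2, h3⟩
    exact ⟨by linarith, by linarith, by linarith⟩
  · rintro ⟨h1, h2, h3⟩
    exact ⟨by linarith, by linarith, by linarith⟩

noncomputable def T : Set E2 := convexHull ℝ {P (-5) 0, P 5 0, P 0 8}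

lemma mem_T (q : E2) : q ∈ T ↔ 0 ≤ q 1 ∧ 8 * q 0 + 5 * q 1 ≤ 40 ∧ -8 * q 0 + 5 * q 1 ≤ 40 := by
  unfold T
  rw [tri_iff _ _ _ _ (by simp only [orient, mk0, mk1]; norm_num)]
  simp only [orient, mk0, mk1]
  constructor
  · rintro ⟨h1, h2, h3⟩
    exact ⟨by linarith, by linarith, by linarith⟩
  · rintro ⟨h1, h2, h3⟩
    exact ⟨by linarith, by linarith, by linarith⟩

noncomputable def T1 : Set E2 := convexHull ℝ {P (-5) 0, P 0 0, P 0 8}

lemma mem_T1 (q : E2) : q ∈ T1 ↔ 0 ≤ q 1 ∧ q 0 ≤ 0 ∧ -8 * q 0 + 5 * q 1 ≤ 40 := by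
  unfold T1
  rw [tri_iff _ _ _ _ (by simp only [orient, mk0, mk1]; norm_num)]
  simp only [orient, mk0, mk1]
  constructor
  · rintro ⟨h1, h2, h3⟩
    exact ⟨by linarith, by linarith, by linarith⟩
  · rintro ⟨h1, h2, h3⟩
    exact ⟨by linarith, by linarith, by linarith⟩

noncomputable def T2 : Set E2 := convexHull ℝ {P 0 0, P 5 0, P 0 8}

lemma mem_T2 (q : E2) : q ∈ T2 ↔ 0 ≤ q 1 ∧ 0 ≤ q 0 ∧ 8 * q 0 + 5 * q 1 ≤ 40 := by
  unfold T2
  rw [tri_iff _ _ _ _ (by simp only [orient, mk0, mk1]; norm_num)]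
  simp only [orient, mk0, mk1]
  constructor
  · rintro ⟨h1, h2, h3⟩
    exact ⟨by linarith, by linarith, by linarith⟩
  · rintro ⟨h1, h2, h3⟩
    exact ⟨by linarith, by linarith, by linarith⟩

lemma vol_C : volume C = ENNReal.ofReal 60 := by
  unfold C
  rw [tri_vol _ _ _ (by simp only [orient, mk0, mk1]; norm_num)]
  congr 1
  simp only [orient, mk0, mk1]
  rw [abs_of_pos (by norm_num)]; norm_num

lemma vol_T : volume T = ENNReal.ofReal 40 := by
  unfold T
  rw [tri_vol _ _ _ (by simp only [orient, mk0, mk1]; norm_num)]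
  congr 1
  simp only [orient, mk0, mk1]
  rw [abs_of_pos (by norm_num)]; norm_num

lemma vol_T1 : volume T1 = ENNReal.ofReal 20 := by
  unfold T1
  rw [tri_vol _ _ _ (by simp only [orient, mk0, mk1]; norm_num)]
  congr 1
  simp only [orient, mk0, mk1]
  rw [abs_of_pos (by norm_num)]; norm_num

lemma vol_T2 : volume T2 = ENNReal.ofReal 20 := by
  unfold T2
  rw [tri_vol _ _ _ (by simp only [orient, mk0, mk1]; norm_num)]
  congr 1
  simp only [orient, mk0, mk1]
  rw [abs_of_pos (by norm_num)]; norm_num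

lemma hp_convex (a b t : ℝ) : Convex ℝ {q : E2 | a * q 0 + b * q 1 < t} := by
  intro x hx y hy u v hu hv huv
  simp only [mem_ofPred_eq, PiLp.add_apply, PiLp.smul_apply, smul_eq_mul] at *
  have e : a * (u * x 0 + v * y 0) + b * (u * x 1 + v * y 1) =
      u * (a * x 0 + b * x 1) + v * (a * y 0 + b * y 1) := by ring
  rw [e]
  rcases hu.eq_or_lt with rfl | hu'
  · rw [zero_add] at huv; subst huv; linarith
  · have h1 : u * (a * x 0 + b * x 1) < u * t := mul_lt_mul_of_pos_left hx hu'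
    have h2 : v * (a * y 0 + b * y 1) ≤ v * t := mul_le_mul_of_nonneg_left hy.le hv
    have h3 : u * t + v * t = t := by rw [← add_mul, huv, one_mul]
    linarith

lemma hp_open (a b t : ℝ) : IsOpen {q : E2 | a * q 0 + b * q 1 < t} :=
  isOpen_lt (by fun_prop) continuous_const

/-- the three pieces -/
def D1 : Set E2 := C ∩ ({q | (-8) * q 0 + 5 * q 1 < 40} ∩ {q | 1 * q 0 + 0 * q 1 < 0})
def D2 : Set E2 := C ∩ ({q | 8 * q 0 + 5 * q 1 < 40} ∩ {q | (-1) * q 0 + 0 * q 1 < 0})
def D3 : Set E2 := C ∩ ({q | 8 * q 0 + (-5) * q 1 < -40} ∪ {q | (-8) * q 0 + (-5) * q 1 < -40})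

def cuts : Set E2 := segment ℝ (P 0 8) (P (-5) 0) ∪ segment ℝ (P 0 8) (P 0 0) ∪
  segment ℝ (P 0 8) (P 5 0)

lemma mem_cuts {q : E2} (h : q ∈ cuts) :
    (-8 * q 0 + 5 * q 1 = 40 ∧ q 0 ≤ 0) ∨ (q 0 = 0 ∧ q 1 ≤ 8) ∨
      (8 * q 0 + 5 * q 1 = 40 ∧ 0 ≤ q 0) := by
  rcases h with (h | h) | h
  · left
    obtain ⟨u, v, hu, hv, huv, rfl⟩ := h
    simp only [PiLp.add_apply, PiLp.smul_apply, smul_eq_mul, mk0, mk1]
    constructor
    · have : u = 1 - v := by linarith
      subst this; ring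
    · linarith
  · right; left
    obtain ⟨u, v, hu, hv, huv, rfl⟩ := h
    simp only [PiLp.add_apply, PiLp.smul_apply, smul_eq_mul, mk0, mk1]
    constructor
    · ring
    · linarith
  · right; right
    obtain ⟨u, v, hu, hv, huv, rfl⟩ := h
    simp only [PiLp.add_apply, PiLp.smul_apply, smul_eq_mul, mk0, mk1]
    constructor
    · have : u = 1 - v := by linarith
      subst this; ring
    · linarith

lemma seg_intro {a b q : E2} {v : ℝ} (h0 : 0 ≤ v) (h1 : v ≤ 1)
    (e0 : q 0 = (1 - v) * a 0 + v * b 0) (e1 : q 1 = (1 - v) * a 1 + v * b 1) :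
    q ∈ segment ℝ a b := by
  refine ⟨1 - v, v, by linarith, h0, by ring, ?_⟩
  apply ext2
  · simp only [PiLp.add_apply, PiLp.smul_apply, smul_eq_mul, e0]
  · simp only [PiLp.add_apply, PiLp.smul_apply, smul_eq_mul, e1]

lemma sdiff_eq : C \ cuts = D1 ∪ D2 ∪ D3 := by
  ext q
  constructor
  · rintro ⟨hC, hn⟩
    have hC' := (mem_C q).1 hC
    obtain ⟨c1, c2, c3⟩ := hC'
    by_contra hno
    simp only [D1, D2, D3, mem_union, mem_inter_iff, mem_ofPred_eq, hC, true_and, not_or, not_and,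
      not_lt] at hno
    obtain ⟨⟨n1, n2⟩, n3, n4⟩ := hno
    apply hn
    rcases lt_trichotomy (q 0) 0 with h | h | h
    · left; left
      have e : -8 * q 0 + 5 * q 1 = 40 := by
        rcases lt_or_ge (-8 * q 0 + 5 * q 1) 40 with h' | h'
        · have := n1 h'; linarith
        · linarith
      refine seg_intro (v := -q 0 / 5) (by linarith) (by linarith) ?_ ?_
      · simp only [mk0]; ring
      · simp only [mk1]; linarith
    · left; right
      refine seg_intro (v := 1 - q 1 / 8) ?_ ?_ ?_ ?_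
      · rw [h] at n3; linarith
      · linarith
      · simp only [mk0, h]; ring
      · simp only [mk1]; ring
    · right
      have e : 8 * q 0 + 5 * q 1 = 40 := by
        rcases lt_or_ge (8 * q 0 + 5 * q 1) 40 with h' | h'
        · have := n2 h'; linarith
        · linarith
      refine seg_intro (v := q 0 / 5) (by linarith) (by linarith) ?_ ?_
      · simp only [mk0]; ring
      · simp only [mk1]; linarith
  · intro h
    have hC : q ∈ C := by
      rcases h with (h | h) | h <;> exact h.1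
    refine ⟨hC, fun hcut => ?_⟩
    have hm := mem_cuts hcut
    rcases h with (h | h) | h
    · obtain ⟨_, h1, h2⟩ := h
      simp only [mem_ofPred_eq] at h1 h2
      rcases hm with ⟨m1, m2⟩ | ⟨m1, m2⟩ | ⟨m1, m2⟩ <;> linarith
    · obtain ⟨_, h1, h2⟩ := h
      simp only [mem_ofPred_eq] at h1 h2
      rcases hm with ⟨m1, m2⟩ | ⟨m1, m2⟩ | ⟨m1, m2⟩ <;> linarith
    · obtain ⟨_, h1 | h1⟩ := h <;> simp only [mem_ofPred_eq] at h1 <;>
        rcases hm with ⟨m1, m2⟩ | ⟨m1, m2⟩ | ⟨m1, m2⟩ <;> linarith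

lemma convex_C : Convex ℝ C := convex_convexHull _ _

lemma D1_conn : IsPreconnected D1 :=
  (convex_C.inter ((hp_convex _ _ _).inter (hp_convex _ _ _))).isPreconnected

lemma D2_conn : IsPreconnected D2 :=
  (convex_C.inter ((hp_convex _ _ _).inter (hp_convex _ _ _))).isPreconnected

lemma D3_conn : IsPreconnected D3 := by
  unfold D3
  rw [inter_union_distrib_left]
  refine IsPreconnected.union (P 0 10) ?_ ?_ (convex_C.inter (hp_convex _ _ _)).isPreconnected
    (convex_C.inter (hp_convex _ _ _)).isPreconnected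
  · refine ⟨(mem_C _).2 (by simp only [mk0, mk1]; norm_num), ?_⟩
    simp only [mem_ofPred_eq, mk0, mk1]; norm_num
  · refine ⟨(mem_C _).2 (by simp only [mk0, mk1]; norm_num), ?_⟩
    simp only [mem_ofPred_eq, mk0, mk1]; norm_num

lemma comp_eq {F D O O' : Set E2} (hO : IsOpen O) (hO' : IsOpen O') (hd : Disjoint O O')
    (hF : F ⊆ O ∪ O') (hD : F ∩ O = D) (hc : IsPreconnected D) {x : E2} (hx : x ∈ D) :
    connectedComponentIn F x = D := by
  have hDF : D ⊆ F := by rw [← hD]; exact inter_subset_left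
  apply Subset.antisymm
  · rw [← hD]
    refine subset_inter (connectedComponentIn_subset _ _) ?_
    refine IsPreconnected.subset_left_of_subset_union hO hO' hd
      ((connectedComponentIn_subset _ _).trans hF) ?_ isPreconnected_connectedComponentIn
    refine ⟨x, mem_connectedComponentIn (hDF hx), ?_⟩
    rw [← hD] at hx; exact hx.2
  · exact hc.subset_connectedComponentIn hx hDF

lemma comp1 {x : E2} (hx : x ∈ D1) : connectedComponentIn (C \ cuts) x = D1 := by
  refine comp_eq (O := {q | (-8) * q 0 + 5 * q 1 < 40} ∩ {q | 1 * q 0 + 0 * q 1 < 0})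
    (O' := ({q | 8 * q 0 + 5 * q 1 < 40} ∩ {q | (-1) * q 0 + 0 * q 1 < 0}) ∪
      ({q | 8 * q 0 + (-5) * q 1 < -40} ∪ {q | (-8) * q 0 + (-5) * q 1 < -40}))
    ((hp_open _ _ _).inter (hp_open _ _ _))
    (((hp_open _ _ _).inter (hp_open _ _ _)).union ((hp_open _ _ _).union (hp_open _ _ _)))
    ?_ ?_ ?_ D1_conn hx
  · rw [Set.disjoint_left]
    rintro q ⟨h1, h2⟩ (⟨h3, h4⟩ | h3 | h3) <;> simp only [mem_ofPred_eq] at * <;> linarith
  · rw [sdiff_eq]
    rintro q ((h | h) | h)
    · exact Or.inl h.2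
    · exact Or.inr (Or.inl h.2)
    · exact Or.inr (Or.inr h.2)
  · rw [sdiff_eq]
    ext q
    constructor
    · rintro ⟨(h | h) | h, h1, h2⟩
      · exact h
      · obtain ⟨_, h3, h4⟩ := h
        simp only [mem_ofPred_eq] at *; linarith
      · obtain ⟨_, h3 | h3⟩ := h <;> simp only [mem_ofPred_eq] at * <;> linarith
    · intro h; exact ⟨Or.inl (Or.inl h), h.2⟩

lemma comp2 {x : E2} (hx : x ∈ D2) : connectedComponentIn (C \ cuts) x = D2 := by
  refine comp_eq (O := {q | 8 * q 0 + 5 * q 1 < 40} ∩ {q | (-1) * q 0 + 0 * q 1 < 0})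
    (O' := ({q | (-8) * q 0 + 5 * q 1 < 40} ∩ {q | 1 * q 0 + 0 * q 1 < 0}) ∪
      ({q | 8 * q 0 + (-5) * q 1 < -40} ∪ {q | (-8) * q 0 + (-5) * q 1 < -40}))
    ((hp_open _ _ _).inter (hp_open _ _ _))
    (((hp_open _ _ _).inter (hp_open _ _ _)).union ((hp_open _ _ _).union (hp_open _ _ _)))
    ?_ ?_ ?_ D2_conn hx
  · rw [Set.disjoint_left]
    rintro q ⟨h1, h2⟩ (⟨h3, h4⟩ | h3 | h3) <;> simp only [mem_ofPred_eq] at * <;> linarith
  · rw [sdiff_eq]
    rintro q ((h | h) | h)
    · exact Or.inr (Or.inl h.2)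
    · exact Or.inl h.2
    · exact Or.inr (Or.inr h.2)
  · rw [sdiff_eq]
    ext q
    constructor
    · rintro ⟨(h | h) | h, h1, h2⟩
      · obtain ⟨_, h3, h4⟩ := h
        simp only [mem_ofPred_eq] at *; linarith
      · exact h
      · obtain ⟨_, h3 | h3⟩ := h <;> simp only [mem_ofPred_eq] at * <;> linarith
    · intro h; exact ⟨Or.inl (Or.inr h), h.2⟩

lemma comp3 {x : E2} (hx : x ∈ D3) : connectedComponentIn (C \ cuts) x = D3 := by
  refine comp_eq (O := {q | 8 * q 0 + (-5) * q 1 < -40} ∪ {q | (-8) * q 0 + (-5) * q 1 < -40})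
    (O' := ({q | (-8) * q 0 + 5 * q 1 < 40} ∩ {q | 1 * q 0 + 0 * q 1 < 0}) ∪
      ({q | 8 * q 0 + 5 * q 1 < 40} ∩ {q | (-1) * q 0 + 0 * q 1 < 0}))
    ((hp_open _ _ _).union (hp_open _ _ _))
    (((hp_open _ _ _).inter (hp_open _ _ _)).union ((hp_open _ _ _).inter (hp_open _ _ _)))
    ?_ ?_ ?_ D3_conn hx
  · rw [Set.disjoint_left]
    rintro q (h1 | h1) (⟨h3, h4⟩ | ⟨h3, h4⟩) <;> simp only [mem_ofPred_eq] at * <;> linarith
  · rw [sdiff_eq]
    rintro q ((h | h) | h)
    · exact Or.inr (Or.inl h.2)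
    · exact Or.inr (Or.inr h.2)
    · exact Or.inl h.2
  · rw [sdiff_eq]
    ext q
    constructor
    · rintro ⟨(h | h) | h, h1⟩
      · obtain ⟨_, h3, h4⟩ := h
        rcases h1 with h1 | h1 <;> simp only [mem_ofPred_eq] at * <;> linarith
      · obtain ⟨_, h3, h4⟩ := h
        rcases h1 with h1 | h1 <;> simp only [mem_ofPred_eq] at * <;> linarith
      · exact h
    · intro h; exact ⟨Or.inr h, h.2⟩

lemma mem_D1 : P (-1) 1 ∈ D1 := by
  refine ⟨(mem_C _).2 (by simp only [mk0, mk1]; norm_num), ?_, ?_⟩ <;>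
    simp only [mem_ofPred_eq, mk0, mk1] <;> norm_num

lemma mem_D2 : P 1 1 ∈ D2 := by
  refine ⟨(mem_C _).2 (by simp only [mk0, mk1]; norm_num), ?_, ?_⟩ <;>
    simp only [mem_ofPred_eq, mk0, mk1] <;> norm_num

lemma mem_D3 : P 0 9 ∈ D3 := by
  refine ⟨(mem_C _).2 (by simp only [mk0, mk1]; norm_num), Or.inl ?_⟩
  simp only [mem_ofPred_eq, mk0, mk1]; norm_num

lemma pieces_eq : pieces C cuts = {D1, D2, D3} := by
  ext D
  constructor
  · rintro ⟨x, hx, rfl⟩
    rw [sdiff_eq] at hx
    rcases hx with (hx | hx) | hx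
    · rw [comp1 hx]; simp
    · rw [comp2 hx]; simp
    · rw [comp3 hx]; simp
  · rintro (rfl | rfl | rfl)
    · exact ⟨_, by rw [sdiff_eq]; exact Or.inl (Or.inl mem_D1), (comp1 mem_D1).symm⟩
    · exact ⟨_, by rw [sdiff_eq]; exact Or.inl (Or.inr mem_D2), (comp2 mem_D2).symm⟩
    · exact ⟨_, by rw [sdiff_eq]; exact Or.inr mem_D3, (comp3 mem_D3).symm⟩

lemma ncard_pieces : (pieces C cuts).ncard = 3 := by
  rw [pieces_eq, Set.ncard_eq_three]
  refine ⟨D1, D2, D3, ?_, ?_, ?_, rfl⟩
  · intro h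
    have h1 := mem_D1
    rw [h] at h1
    have := h1.2.2
    simp only [mem_ofPred_eq, mk0, mk1] at this; linarith
  · intro h
    have h1 := mem_D1
    rw [h] at h1
    rcases h1.2 with this | this <;> simp only [mem_ofPred_eq, mk0, mk1] at this <;> linarith
  · intro h
    have h1 := mem_D2
    rw [h] at h1
    rcases h1.2 with this | this <;> simp only [mem_ofPred_eq, mk0, mk1] at this <;> linarith

lemma null0 : volume {q : E2 | q 0 = 0} = 0 := by
  have h := line_null (P 0 0) (P 0 1) (fun h => by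
    have := congrArg (fun z : E2 => z 1) h; simp only [mk1] at this; norm_num at this)
  refine measure_mono_null ?_ h
  intro q hq
  simp only [mem_ofPred_eq, orient, mk0, mk1] at hq ⊢
  rw [hq]; ring

lemma nullL : volume {q : E2 | -8 * q 0 + 5 * q 1 = 40} = 0 := by
  have h := line_null (P (-5) 0) (P 0 8) (fun h => by
    have := congrArg (fun z : E2 => z 1) h; simp only [mk1] at this; norm_num at this)
  refine measure_mono_null ?_ h
  intro q hq
  simp only [mem_ofPred_eq, orient, mk0, mk1] at hq ⊢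
  linarith

lemma nullR : volume {q : E2 | 8 * q 0 + 5 * q 1 = 40} = 0 := by
  have h := line_null (P 5 0) (P 0 8) (fun h => by
    have := congrArg (fun z : E2 => z 1) h; simp only [mk1] at this; norm_num at this)
  refine measure_mono_null ?_ h
  intro q hq
  simp only [mem_ofPred_eq, orient, mk0, mk1] at hq ⊢
  linarith

lemma vol_D1 : volume D1 = ENNReal.ofReal 20 := by
  rw [← vol_T1]
  apply le_antisymm
  · apply measure_mono
    rintro q ⟨hC, h1, h2⟩
    rw [mem_C] at hC
    rw [mem_T1]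
    simp only [mem_ofPred_eq] at h1 h2
    exact ⟨hC.1, by linarith, by linarith⟩
  · have hsub : T1 ⊆ D1 ∪ ({q : E2 | q 0 = 0} ∪ {q : E2 | -8 * q 0 + 5 * q 1 = 40}) := by
      intro q hq
      rw [mem_T1] at hq
      obtain ⟨h0, h1, h2⟩ := hq
      rcases h1.eq_or_lt with h | h
      · exact Or.inr (Or.inl h)
      rcases h2.eq_or_lt with h' | h'
      · exact Or.inr (Or.inr h')
      refine Or.inl ⟨(mem_C _).2 ⟨h0, by linarith, by linarith⟩, ?_, ?_⟩ <;>
        simp only [mem_ofPred_eq] <;> linarith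
    refine (measure_mono hsub).trans ((measure_union_le _ _).trans ?_)
    have : volume ({q : E2 | q 0 = 0} ∪ {q : E2 | -8 * q 0 + 5 * q 1 = 40}) = 0 :=
      measure_union_null null0 nullL
    rw [this, add_zero]

lemma vol_D2 : volume D2 = ENNReal.ofReal 20 := by
  rw [← vol_T2]
  apply le_antisymm
  · apply measure_mono
    rintro q ⟨hC, h1, h2⟩
    rw [mem_C] at hC
    rw [mem_T2]
    simp only [mem_ofPred_eq] at h1 h2
    exact ⟨hC.1, by linarith, by linarith⟩
  · have hsub : T2 ⊆ D2 ∪ ({q : E2 | q 0 = 0} ∪ {q : E2 | 8 * q 0 + 5 * q 1 = 40}) := by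
      intro q hq
      rw [mem_T2] at hq
      obtain ⟨h0, h1, h2⟩ := hq
      rcases h1.eq_or_lt with h | h
      · exact Or.inr (Or.inl h.symm)
      rcases h2.eq_or_lt with h' | h'
      · exact Or.inr (Or.inr h')
      refine Or.inl ⟨(mem_C _).2 ⟨h0, by linarith, by linarith⟩, ?_, ?_⟩ <;>
        simp only [mem_ofPred_eq] <;> linarith
    refine (measure_mono hsub).trans ((measure_union_le _ _).trans ?_)
    have : volume ({q : E2 | q 0 = 0} ∪ {q : E2 | 8 * q 0 + 5 * q 1 = 40}) = 0 :=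
      measure_union_null null0 nullR
    rw [this, add_zero]

lemma D3_eq : D3 = C \ T := by
  ext q
  constructor
  · rintro ⟨hC, h⟩
    refine ⟨hC, fun hT => ?_⟩
    rw [mem_T] at hT
    rcases h with h | h <;> simp only [mem_ofPred_eq] at h <;> linarith
  · rintro ⟨hC, hT⟩
    refine ⟨hC, ?_⟩
    by_contra hno
    simp only [mem_union, mem_ofPred_eq, not_or, not_lt] at hno
    apply hT
    rw [mem_T]
    rw [mem_C] at hC
    exact ⟨hC.1, by linarith, by linarith⟩

lemma vol_D3 : volume D3 = ENNReal.ofReal 20 := by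
  have hsub : T ⊆ C := by
    intro q hq
    rw [mem_T] at hq
    rw [mem_C]
    exact ⟨hq.1, by linarith, by linarith⟩
  have hm : NullMeasurableSet T volume := (tri_meas _ _ _).nullMeasurableSet
  rw [D3_eq, measure_sdiff hsub hm (by rw [vol_T]; exact ENNReal.ofReal_ne_top),
    vol_C, vol_T, ← ENNReal.ofReal_sub _ (by norm_num)]
  congr 1; norm_num

lemma third : volume C / 3 = ENNReal.ofReal 20 := by
  rw [vol_C]
  have : (3 : ℝ≥0∞) = ENNReal.ofReal 3 := by simp
  rw [this, ← ENNReal.ofReal_div_of_pos (by norm_num)]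
  congr 1; norm_num

lemma equi : IsEquipartition C cuts := by
  refine ⟨ncard_pieces, ?_⟩
  rw [pieces_eq, third]
  rintro D (rfl | rfl | rfl)
  · exact vol_D1
  · exact vol_D2
  · exact vol_D3

lemma compact_C : IsCompact C := by
  unfold C
  exact Set.Finite.isCompact_convexHull ℝ (Set.toFinite _)

lemma int_P : P 0 8 ∈ interior C := by
  rw [mem_interior]
  refine ⟨{q | 5 * q 0 + 3 * q 1 < 30} ∩ ({q | (-5) * q 0 + 3 * q 1 < 30} ∩
    {q | 0 * q 0 + (-1) * q 1 < 0}), ?_, (hp_open _ _ _).inter ((hp_open _ _ _).inter (hp_open _ _ _)), ?_⟩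
  · rintro q ⟨h1, h2, h3⟩
    rw [mem_C]
    simp only [mem_ofPred_eq] at h1 h2 h3
    exact ⟨by linarith, by linarith, by linarith⟩
  · refine ⟨?_, ?_, ?_⟩ <;> simp only [mem_ofPred_eq, mk0, mk1] <;> norm_num

lemma frontier_base (x : ℝ) (h1 : -6 ≤ x) (h2 : x ≤ 6) : P x 0 ∈ frontier C := by
  rw [frontier_eq_closure_inter_closure]
  refine ⟨subset_closure ((mem_C _).2 (by simp only [mk0, mk1]; exact ⟨le_refl _, by linarith, by linarith⟩)), ?_⟩
  rw [Metric.mem_closure_iff]
  intro ε hε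
  refine ⟨P x (-(ε / 2)), ?_, ?_⟩
  · intro h
    rw [mem_C] at h
    have := h.1
    simp only [mk1] at this; linarith
  · rw [EuclideanSpace.dist_eq, Fin.sum_univ_two]
    simp only [mk0, mk1, Real.dist_eq, sub_self, abs_zero]
    rw [show (0 : ℝ) - -(ε / 2) = ε / 2 by ring, abs_of_pos (by positivity),
      show (0 : ℝ) ^ 2 + (ε / 2) ^ 2 = (ε / 2) ^ 2 by ring, Real.sqrt_sq (by positivity)]
    linarith

lemma far (x : ℝ) (h1 : -5 ≤ x) (h2 : x ≤ 5) {q : E2} (hq : q ∈ C) : dist (P x 0) q ≤ 11.2 := by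
  rw [mem_C] at hq
  obtain ⟨c1, c2, c3⟩ := hq
  rw [EuclideanSpace.dist_eq, Fin.sum_univ_two]
  simp only [mk0, mk1, Real.dist_eq, sq_abs]
  rw [Real.sqrt_le_left (by norm_num)]
  have e1 : |x - q 0| ≤ 11 - 3 / 5 * q 1 := by
    rw [abs_le]; constructor <;> linarith
  have e2 : (x - q 0) ^ 2 ≤ (11 - 3 / 5 * q 1) ^ 2 := by
    rw [← sq_abs]; exact pow_le_pow_left₀ (abs_nonneg _) e1 2
  have e3 : q 1 ≤ 10 := by linarith
  nlinarith [mul_nonneg c1 (sub_nonneg.2 e3)]

/-- the boundary points of the three rays -/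
noncomputable def A : Fin 3 → E2 := ![P (-5) 0, P 0 0, P 5 0]

lemma len : 26.8 < dist (P 0 8) (A 0) + dist (P 0 8) (A 1) + dist (P 0 8) (A 2) := by
  have h89 : (9.4 : ℝ) < √89 := by rw [Real.lt_sqrt (by norm_num)]; norm_num
  have e0 : dist (P 0 8) (A 0) = √89 := by
    change dist (P 0 8) (P (-5) 0) = _
    rw [EuclideanSpace.dist_eq, Fin.sum_univ_two]
    simp only [mk0, mk1, Real.dist_eq, sq_abs]
    congr 1; norm_num
  have e1 : dist (P 0 8) (A 1) = 8 := by
    change dist (P 0 8) (P 0 0) = _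
    rw [EuclideanSpace.dist_eq, Fin.sum_univ_two]
    simp only [mk0, mk1, Real.dist_eq, sq_abs]
    rw [show ((0 : ℝ) - 0) ^ 2 + (8 - 0) ^ 2 = 8 ^ 2 by norm_num, Real.sqrt_sq (by norm_num)]
  have e2 : dist (P 0 8) (A 2) = √89 := by
    change dist (P 0 8) (P 5 0) = _
    rw [EuclideanSpace.dist_eq, Fin.sum_univ_two]
    simp only [mk0, mk1, Real.dist_eq, sq_abs]
    congr 1; norm_num
  rw [e0, e1, e2]; linarith

/-- **Q1 is false.** There are a convex region `C`, an interior point `p` and a three-ray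
equipartition from `p` with the boundary points `A 0, A 1, A 2` such that for every `i` and all points
`y, z` of `C` one has `|A i - y| + |A i - z| < |p - A 0| + |p - A 1| + |p - A 2|`; in particular the
two-ray equipartition from `A i` has a smaller total cut length, for every `i`. -/
theorem result : ∃ (C : Set E2) (p : E2) (A : Fin 3 → E2), IsConvexRegion C ∧
    IsThreeRayEquipartition C p A ∧
    (∀ i, ∀ y ∈ C, ∀ z ∈ C,
      dist (A i) y + dist (A i) z < dist p (A 0) + dist p (A 1) + dist p (A 2)) ∧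
    (∀ i, ∀ y z, IsTwoRayEquipartition C (A i) y z →
      dist (A i) y + dist (A i) z < dist p (A 0) + dist p (A 1) + dist p (A 2)) := by
  have key : ∀ i, ∀ y ∈ C, ∀ z ∈ C, dist (A i) y + dist (A i) z <
      dist (P 0 8) (A 0) + dist (P 0 8) (A 1) + dist (P 0 8) (A 2) := by
    intro i y hy z hz
    have hx : ∃ x : ℝ, A i = P x 0 ∧ -5 ≤ x ∧ x ≤ 5 := by
      fin_cases i
      · exact ⟨-5, rfl, by norm_num, by norm_num⟩
      · exact ⟨0, rfl, by norm_num, by norm_num⟩
      · exact ⟨5, rfl, by norm_num, by norm_num⟩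
    obtain ⟨x, hA, h1, h2⟩ := hx
    have f1 := far x h1 h2 hy
    have f2 := far x h1 h2 hz
    rw [hA]
    have := len
    linarith
  refine ⟨C, P 0 8, A, ⟨compact_C, convex_C, ⟨_, int_P⟩⟩, ⟨int_P, ?_, equi⟩, key, ?_⟩
  · intro i
    fin_cases i
    · exact frontier_base _ (by norm_num) (by norm_num)
    · exact frontier_base _ (by norm_num) (by norm_num)
    · exact frontier_base _ (by norm_num) (by norm_num)
  · rintro i y z ⟨_, hy, hz, _⟩
    exact key i y (compact_C.isClosed.frontier_subset hy) z (compact_C.isClosed.frontier_subset hz)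

end Pool.Agent.Results.MP_d05d56_co.ShorterFromBoundary
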